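import Pool.Agent.helper20.FX.Spec

/-! fm: PRB: the size and parity of `Pr d`. -/

set_option autoImplicit false

open Finset

namespace Pool.Agent.FXM

theorem PRB : PRB_stmt := by
  intro d
  induction d with
  | zero =>
    refine ⟨by simp [Pr], by simp [Pr], ?_⟩
    simp [Pr]
  | succ d ih =>
    obtain ⟨h1, h2, h3⟩ := ih
    have hs : Pr (d + 1) = Pr d * (2 ^ (d + 1) - 1) := by
      unfold Pr
      rw [Finset.prod_range_succ]
    have h4 : 2 ≤ 2 ^ (d + 1) := by
      rw [pow_succ]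
      have : 1 ≤ 2 ^ d := Nat.one_le_two_pow
      omega
    refine ⟨?_, ?_, ?_⟩
    · rw [hs]
      refine h1.mul ?_
      rw [Nat.odd_sub (by omega)]
      simp [Nat.even_pow]
    · rw [hs]
      exact Nat.mul_le_mul h2 (by omega : 1 ≤ 2 ^ (d + 1) - 1)
    · rw [hs]
      push_cast
      have h5 : ((2 ^ (d + 1) - 1 : ℕ) : ℝ) ≤ (2 : ℝ) ^ ((d : ℝ) + 1) := by
        rw [Nat.cast_sub (by omega)]
        push_cast
        rw [Real.rpow_add (by norm_num), Real.rpow_one, Real.rpow_natCast, pow_succ]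
        linarith
      calc ((Pr d : ℕ) : ℝ) * ((2 ^ (d + 1) - 1 : ℕ) : ℝ)
          ≤ (2 : ℝ) ^ ((d : ℝ) * (d + 1) / 2) * (2 : ℝ) ^ ((d : ℝ) + 1) :=
            mul_le_mul h3 h5 (Nat.cast_nonneg _) (by positivity)
        _ = (2 : ℝ) ^ (((d : ℝ) + 1) * ((d : ℝ) + 1 + 1) / 2) := by
            rw [← Real.rpow_add (by norm_num)]
            congr 1
            ring

end Pool.Agent.FXM
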